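import Mathlib

set_option autoImplicit false

namespace Pool.Agent.Results.MP_dcd72d_ag.NoGap

open MvPolynomial Filter Topology

/-- the function field k(x,y) of the projective plane -/
abbrev K (k : Type) [Field k] := FractionRing (MvPolynomial (Fin 2) k)

/-- a polynomial seen in the function field -/
noncomputable abbrev ι {k : Type} [Field k] (P : MvPolynomial (Fin 2) k) : K k :=
  algebraMap (MvPolynomial (Fin 2) k) (K k) P

/-- the degree: least D such that f is (P 0 / R, P 1 / R) with all three of degree at most D -/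
noncomputable def deg1 {k : Type} [Field k] (f : K k →ₐ[k] K k) : ℕ :=
  sInf {D | ∃ (P : Fin 2 → MvPolynomial (Fin 2) k) (R : MvPolynomial (Fin 2) k),
    R ≠ 0 ∧ R.totalDegree ≤ D ∧ ∀ i, (P i).totalDegree ≤ D ∧ f (ι (X i)) = ι (P i) / ι R}

/-- the top degree: degree of the function field over its image -/
noncomputable def deg2 {k : Type} [Field k] (f : K k →ₐ[k] K k) : ℕ :=
  Module.finrank f.fieldRange (K k)

/-- the n-th root of u n tends to l -/
def Lim (u : ℕ → ℕ) (l : ℝ) : Prop :=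
  Tendsto (fun n : ℕ => (u n : ℝ) ^ (1 / (n : ℝ))) atTop (𝓝 l)

section
variable {k : Type} [Field k]

theorem ι_inj : Function.Injective (ι (k := k)) := IsFractionRing.injective _ _

theorem ι_ne {P : MvPolynomial (Fin 2) k} (h : P ≠ 0) : ι P ≠ 0 := by
  intro h0
  exact h (ι_inj (by simpa [ι] using h0))

theorem x_ne (i : Fin 2) : ι (X i : MvPolynomial (Fin 2) k) ≠ 0 := ι_ne (X_ne_zero i)

theorem mon_eq (a b : ℕ) : (X 0 ^ a * X 1 ^ b : MvPolynomial (Fin 2) k) =
    monomial (Finsupp.single 0 a + Finsupp.single 1 b) 1 := by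
  rw [X_pow_eq_monomial, X_pow_eq_monomial, monomial_mul, one_mul]

theorem mon_deg (a b : ℕ) : (X 0 ^ a * X 1 ^ b : MvPolynomial (Fin 2) k).totalDegree = a + b := by
  rw [totalDegree_mul_of_isDomain (pow_ne_zero _ (X_ne_zero _)) (pow_ne_zero _ (X_ne_zero _)),
    totalDegree_X_pow, totalDegree_X_pow]

/-- substitution of two monomials -/
noncomputable def sub (a b c d : ℕ) : MvPolynomial (Fin 2) k →ₐ[k] MvPolynomial (Fin 2) k :=
  aeval ![X 0 ^ a * X 1 ^ b, X 0 ^ c * X 1 ^ d]

/-- action on exponents -/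
noncomputable def ex (a b c d : ℕ) (s : Fin 2 →₀ ℕ) : Fin 2 →₀ ℕ :=
  Finsupp.single 0 (a * s 0 + c * s 1) + Finsupp.single 1 (b * s 0 + d * s 1)

theorem ex_inj (a b c d : ℕ) (h : a * d ≠ b * c) : Function.Injective (ex a b c d) := by
  intro s t hst
  have h0 := congrArg (fun u => u 0) hst
  have h1 := congrArg (fun u => u 1) hst
  simp [ex] at h0 h1
  have hz : ((a : ℤ) * d - b * c) ≠ 0 := by
    intro hh
    apply h
    have : (a : ℤ) * d = b * c := by linarith
    exact_mod_cast this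
  have h0' : (a : ℤ) * s 0 + c * s 1 = a * t 0 + c * t 1 := by exact_mod_cast h0
  have h1' : (b : ℤ) * s 0 + d * s 1 = b * t 0 + d * t 1 := by exact_mod_cast h1
  have e0 : ((a : ℤ) * d - b * c) * ((s 0 : ℤ) - t 0) = 0 := by
    linear_combination d * h0' - c * h1'
  have e1 : ((a : ℤ) * d - b * c) * ((s 1 : ℤ) - t 1) = 0 := by
    linear_combination a * h1' - b * h0'
  have f0 := (mul_eq_zero.1 e0).resolve_left hz
  have f1 := (mul_eq_zero.1 e1).resolve_left hz
  ext i
  fin_cases i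
  · simp; omega
  · simp; omega

theorem sub_mon (a b c d : ℕ) (s : Fin 2 →₀ ℕ) (r : k) :
    sub a b c d (monomial s r) = monomial (ex a b c d s) r := by
  rw [sub, aeval_monomial, Finsupp.prod_fintype _ _ (by simp), Fin.prod_univ_two]
  have : (monomial (ex a b c d s) r : MvPolynomial (Fin 2) k) =
      C r * (X 0 ^ (a * s 0 + c * s 1) * X 1 ^ (b * s 0 + d * s 1)) := by
    rw [mon_eq, C_mul_monomial, mul_one, ex]
  rw [this]
  simp only [Matrix.cons_val_zero, Matrix.cons_val_one, algebraMap_eq]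
  ring

theorem sub_inj (a b c d : ℕ) (h : a * d ≠ b * c) :
    Function.Injective (sub (k := k) a b c d) := by
  classical
  rw [injective_iff_map_eq_zero]
  intro P hP
  ext s
  have h1 : sub a b c d P = ∑ t ∈ P.support, monomial (ex a b c d t) (coeff t P) := by
    conv_lhs => rw [P.as_sum, map_sum]
    simp only [sub_mon]
  have h2 := congrArg (coeff (ex a b c d s)) h1
  rw [hP, coeff_sum] at h2
  simp only [coeff_monomial, (ex_inj a b c d h).eq_iff] at h2
  rw [Finset.sum_ite_eq'] at h2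
  by_cases hs : s ∈ P.support
  · simpa [hs] using h2.symm
  · simpa using hs

/-- the monomial map -/
noncomputable def mono (a b c d : ℕ) (h : a * d ≠ b * c) : K k →ₐ[k] K k :=
  IsFractionRing.liftAlgHom
    (g := (IsScalarTower.toAlgHom k (MvPolynomial (Fin 2) k) (K k)).comp (sub a b c d))
    (ι_inj.comp (sub_inj a b c d h))

theorem mono_ι (a b c d : ℕ) (h : a * d ≠ b * c) (P : MvPolynomial (Fin 2) k) :
    mono a b c d h (ι P) = ι (sub a b c d P) := by
  rw [mono, IsFractionRing.liftAlgHom_apply, IsFractionRing.lift_algebraMap]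
  rfl

theorem mono_x (a b c d : ℕ) (h : a * d ≠ b * c) :
    mono (k := k) a b c d h (ι (X 0)) = ι (X 0) ^ a * ι (X 1) ^ b := by
  rw [mono_ι]; simp [sub, ι]

theorem mono_y (a b c d : ℕ) (h : a * d ≠ b * c) :
    mono (k := k) a b c d h (ι (X 1)) = ι (X 0) ^ c * ι (X 1) ^ d := by
  rw [mono_ι]; simp [sub, ι]

theorem range_le (f : K k →ₐ[k] K k) (S : IntermediateField k (K k))
    (h0 : f (ι (X 0)) ∈ S) (h1 : f (ι (X 1)) ∈ S) : f.fieldRange ≤ S := by
  have hp : ∀ P : MvPolynomial (Fin 2) k, f (ι P) ∈ S := by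
    intro P
    induction P using MvPolynomial.induction_on with
    | C r =>
      have : ι (C r : MvPolynomial (Fin 2) k) = algebraMap k (K k) r := by
        rw [IsScalarTower.algebraMap_apply k (MvPolynomial (Fin 2) k) (K k)]; rfl
      rw [this, AlgHom.commutes]
      exact S.algebraMap_mem r
    | add p q hp hq =>
      simp only [ι, map_add]
      exact S.add_mem hp hq
    | mul_X p i hp =>
      simp only [ι, map_mul]
      refine S.mul_mem hp ?_
      fin_cases i
      · exact h0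
      · exact h1
  rintro z ⟨w, rfl⟩
  obtain ⟨P, Q, -, rfl⟩ := IsFractionRing.div_surjective (A := MvPolynomial (Fin 2) k) w
  simp only [AlgHom.toRingHom_eq_coe, RingHom.coe_coe, map_div₀]
  exact S.div_mem (hp P) (hp Q)

theorem eq_top (S : IntermediateField k (K k))
    (h0 : ι (X 0) ∈ S) (h1 : ι (X 1) ∈ S) : S = ⊤ := by
  have := range_le (AlgHom.id k (K k)) S h0 h1
  rw [eq_top_iff]
  intro z _
  exact this ⟨z, rfl⟩

theorem deg2_comp (f g : K k →ₐ[k] K k) : deg2 (f.comp g) = deg2 g * deg2 f := by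
  have e1 : (f.comp g).fieldRange = g.fieldRange.map f := by
    ext z; simp [AlgHom.mem_fieldRange, IntermediateField.mem_map]
  have e2 : f.fieldRange = (⊤ : IntermediateField k (K k)).map f := by
    ext z; simp [AlgHom.mem_fieldRange, IntermediateField.mem_map]
  have hle : (f.comp g).fieldRange ≤ f.fieldRange := by
    rintro z ⟨w, rfl⟩; exact ⟨g w, rfl⟩
  have h := IntermediateField.relfinrank_mul_finrank_top hle
  have h2 : IntermediateField.relfinrank (f.comp g).fieldRange f.fieldRange = deg2 g := by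
    rw [e1, e2, IntermediateField.relfinrank_map_map, IntermediateField.relfinrank_top_right]
    rfl
  rw [h2] at h
  exact h.symm

theorem deg2_top (f : K k →ₐ[k] K k) (h : f.fieldRange = ⊤) : deg2 f = 1 := by
  rw [deg2, h, IntermediateField.finrank_top]

theorem deg2_pow (f : K k →ₐ[k] K k) (n : ℕ) : deg2 (f ^ n) = deg2 f ^ n := by
  induction n with
  | zero =>
    rw [pow_zero, pow_zero]
    exact deg2_top _ (eq_top _ ⟨_, rfl⟩ ⟨_, rfl⟩)
  | succ n ih =>
    rw [pow_succ', pow_succ, ← ih]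
    exact deg2_comp f (f ^ n)

theorem deg_pow (P : MvPolynomial (Fin 2) k) (hP : P ≠ 0) (n : ℕ) :
    (P ^ n).totalDegree = n * P.totalDegree := by
  induction n with
  | zero => simp
  | succ n ih => rw [pow_succ, totalDegree_mul_of_isDomain (pow_ne_zero _ hP) hP, ih]; ring

theorem not_pow (p : ℕ) (hp : 2 ≤ p) (w : K k) : w ^ p ≠ ι (X 0) := by
  intro h
  obtain ⟨P, Q, hQ, rfl⟩ := IsFractionRing.div_surjective (A := MvPolynomial (Fin 2) k) w
  have hQ0 : Q ≠ 0 := nonZeroDivisors.ne_zero hQ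
  have hq := ι_ne hQ0
  have h1 : P ^ p = X 0 * Q ^ p := by
    apply ι_inj
    simp only [ι, map_mul, map_pow] at h hq ⊢
    rw [← h, div_pow, div_mul_cancel₀ _ (pow_ne_zero _ hq)]
  have hP0 : P ≠ 0 := by
    rintro rfl
    rw [zero_pow (by omega)] at h1
    exact mul_ne_zero (X_ne_zero 0) (pow_ne_zero _ hQ0) h1.symm
  have h2 := congrArg totalDegree h1
  rw [deg_pow P hP0, totalDegree_mul_of_isDomain (X_ne_zero 0) (pow_ne_zero _ hQ0), deg_pow Q hQ0,
    totalDegree_X] at h2
  have h3 : p ∣ 1 := (Nat.dvd_add_left (Dvd.intro _ rfl)).1 (h2 ▸ Dvd.intro _ rfl)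
  have := Nat.le_of_dvd one_pos h3
  omega

theorem deg2_e' (p : ℕ) (hp : p.Prime) (e : K k →ₐ[k] K k) (hx : e (ι (X 0)) = ι (X 0) ^ p)
    (hy : e (ι (X 1)) = ι (X 1)) : deg2 e = p := by
  let a : e.fieldRange := ⟨e (ι (X 0)), ⟨_, rfl⟩⟩
  have hirr : Irreducible (Polynomial.X ^ p - Polynomial.C a) := by
    apply X_pow_sub_C_irreducible_of_prime hp
    rintro ⟨b, w, rfl⟩ hb
    have h1 : e w ^ p = e (ι (X 0)) := congrArg Subtype.val hb
    rw [← map_pow] at h1
    exact not_pow p hp.two_le w (e.injective h1)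
  have hroot : Polynomial.aeval (ι (X 0 : MvPolynomial (Fin 2) k))
      (Polynomial.X ^ p - Polynomial.C a) = 0 := by
    simp only [map_sub, map_pow, Polynomial.aeval_X, Polynomial.aeval_C]
    rw [← hx]
    exact sub_self _
  have hmon : (Polynomial.X ^ p - Polynomial.C a).Monic := Polynomial.monic_X_pow_sub_C a hp.ne_zero
  have hmin := minpoly.eq_of_irreducible_of_monic hirr hroot hmon
  have hint : IsIntegral e.fieldRange (ι (X 0 : MvPolynomial (Fin 2) k)) := ⟨_, hmon, hroot⟩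
  have h1 := IntermediateField.adjoin.finrank hint
  have htop : IntermediateField.adjoin e.fieldRange {ι (X 0 : MvPolynomial (Fin 2) k)} = ⊤ := by
    apply IntermediateField.restrictScalars_injective k
    rw [IntermediateField.restrictScalars_top]
    apply eq_top
    · rw [IntermediateField.mem_restrictScalars]
      exact IntermediateField.mem_adjoin_simple_self e.fieldRange _
    · rw [IntermediateField.mem_restrictScalars]
      exact IntermediateField.algebraMap_mem (IntermediateField.adjoin e.fieldRange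
        {ι (X 0 : MvPolynomial (Fin 2) k)}) ⟨ι (X 1), ⟨_, hy⟩⟩
  rw [htop, IntermediateField.finrank_top', ← hmin, Polynomial.natDegree_X_pow_sub_C] at h1
  exact h1

theorem deg2_e (p : ℕ) (hp : p.Prime) (h : p * 1 ≠ 0 * 0) : deg2 (mono (k := k) p 0 0 1 h) = p :=
  deg2_e' p hp _ (by rw [mono_x]; simp) (by rw [mono_y]; simp)

theorem deg1_mon (f : K k →ₐ[k] K k) (a b c d : ℕ)
    (h0 : f (ι (X 0)) = ι (X 0) ^ a * ι (X 1) ^ b) (h1 : f (ι (X 1)) = ι (X 0) ^ c * ι (X 1) ^ d) :
    deg1 f = max (a + b) (c + d) := by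
  have low : ∀ (P R : MvPolynomial (Fin 2) k) (u v : ℕ), R ≠ 0 →
      ι (X 0) ^ u * ι (X 1) ^ v = ι P / ι R → u + v ≤ P.totalDegree := by
    intro P R u v hR h
    have h2 : P = (X 0 ^ u * X 1 ^ v) * R := by
      apply ι_inj
      have := ι_ne hR
      simp only [ι, map_mul, map_pow] at h this ⊢
      rw [h, div_mul_cancel₀ _ this]
    rw [h2, totalDegree_mul_of_isDomain (mul_ne_zero (pow_ne_zero _ (X_ne_zero _))
      (pow_ne_zero _ (X_ne_zero _))) hR, mon_deg]
    omega
  apply IsLeast.csInf_eq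
  constructor
  · refine ⟨![X 0 ^ a * X 1 ^ b, X 0 ^ c * X 1 ^ d], 1, one_ne_zero, by simp, ?_⟩
    intro i
    fin_cases i
    · exact ⟨by simp [mon_deg], by simpa [ι] using h0⟩
    · exact ⟨by simp [mon_deg], by simpa [ι] using h1⟩
  · rintro D ⟨P, R, hR, -, hP⟩
    have e0 := low _ R a b hR (h0.symm.trans (hP 0).2)
    have e1 := low _ R c d hR (h1.symm.trans (hP 1).2)
    have := (hP 0).1
    have := (hP 1).1
    omega

theorem iter (f : K k →ₐ[k] K k) (a b c d : ℕ)
    (h0 : f (ι (X 0)) = ι (X 0) ^ a * ι (X 1) ^ b) (h1 : f (ι (X 1)) = ι (X 0) ^ c * ι (X 1) ^ d)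
    (α w : ℝ) (e0 : a + b * w = α) (e1 : c + d * w = α * w) (n : ℕ) :
    ∃ a' b' c' d' : ℕ, (f ^ n) (ι (X 0)) = ι (X 0) ^ a' * ι (X 1) ^ b' ∧
      (f ^ n) (ι (X 1)) = ι (X 0) ^ c' * ι (X 1) ^ d' ∧
      a' + b' * w = α ^ n ∧ c' + d' * w = α ^ n * w := by
  induction n with
  | zero => exact ⟨1, 0, 0, 1, by simp, by simp, by simp, by simp⟩
  | succ n ih =>
    obtain ⟨a', b', c', d', i0, i1, j0, j1⟩ := ih
    refine ⟨a * a' + c * b', b * a' + d * b', a * c' + c * d', b * c' + d * d', ?_, ?_, ?_, ?_⟩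
    · rw [pow_succ', AlgHom.mul_apply, i0, map_mul, map_pow, map_pow, h0, h1]; ring
    · rw [pow_succ', AlgHom.mul_apply, i1, map_mul, map_pow, map_pow, h0, h1]; ring
    · push_cast
      linear_combination a' * e0 + b' * e1 + α * j0
    · push_cast
      linear_combination c' * e0 + d' * e1 + α * j1

end

theorem lim_of (u : ℕ → ℕ) (α w : ℝ) (hα : 0 < α) (hw : 0 < w)
    (h : ∀ n, α ^ n ≤ u n ∧ u n ≤ w * α ^ n) : Lim u α := by
  have t1 : Tendsto (fun n : ℕ => w ^ (1 / (n : ℝ)) * α) atTop (𝓝 α) := by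
    have h1 : Tendsto (fun n : ℕ => (1 / (n : ℝ))) atTop (𝓝 0) := tendsto_one_div_atTop_nhds_zero_nat
    have h2 := ((Real.continuousAt_const_rpow hw.ne').tendsto.comp h1).mul_const α
    simpa using h2
  refine tendsto_of_tendsto_of_tendsto_of_le_of_le' tendsto_const_nhds t1 ?_ ?_
  · filter_upwards [eventually_ge_atTop 1] with n hn
    have hn' : n ≠ 0 := by omega
    calc α = (α ^ n) ^ (1 / (n : ℝ)) := by
          rw [one_div, Real.pow_rpow_inv_natCast hα.le hn']
      _ ≤ _ := Real.rpow_le_rpow (by positivity) (h n).1 (by positivity)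
  · filter_upwards [eventually_ge_atTop 1] with n hn
    have hn' : n ≠ 0 := by omega
    calc _ ≤ (w * α ^ n) ^ (1 / (n : ℝ)) :=
          Real.rpow_le_rpow (by positivity) (h n).2 (by positivity)
      _ = _ := by
          rw [Real.mul_rpow hw.le (by positivity), one_div (n : ℝ),
            Real.pow_rpow_inv_natCast hα.le hn']

theorem lim1 {k : Type} [Field k] (f : K k →ₐ[k] K k) (a b c d : ℕ)
    (h0 : f (ι (X 0)) = ι (X 0) ^ a * ι (X 1) ^ b) (h1 : f (ι (X 1)) = ι (X 0) ^ c * ι (X 1) ^ d)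
    (α w : ℝ) (hα : 0 < α) (hw : 1 ≤ w) (e0 : a + b * w = α) (e1 : c + d * w = α * w) :
    Lim (fun n => deg1 (f ^ n)) α := by
  apply lim_of _ α w hα (by linarith)
  intro n
  obtain ⟨a', b', c', d', i0, i1, j0, j1⟩ := iter f a b c d h0 h1 α w e0 e1 n
  rw [deg1_mon _ _ _ _ _ i0 i1]
  have hA : 0 < α ^ n := pow_pos hα n
  have ha : (0 : ℝ) ≤ a' := by positivity
  have hb : (0 : ℝ) ≤ b' := by positivity
  have hc : (0 : ℝ) ≤ c' := by positivity
  have hd : (0 : ℝ) ≤ d' := by positivity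
  push_cast
  constructor
  · refine le_max_of_le_right ?_
    have : α ^ n * w ≤ (c' + d') * w := by nlinarith
    exact le_of_mul_le_mul_right this (by linarith)
  · apply max_le <;> nlinarith

theorem lim2 {k : Type} [Field k] (f : K k →ₐ[k] K k) (p : ℕ) (hp : 0 < p) (h : deg2 f = p) :
    Lim (fun n => deg2 (f ^ n)) p := by
  apply lim_of _ p 1 (by exact_mod_cast hp) one_pos
  intro n
  rw [deg2_pow, h]
  simp

theorem result (k : Type) [Field k] (μ : ℝ) (hμ : 1 < μ) :
    (∃ (f : K k →ₐ[k] K k) (l₁ l₂ : ℝ), Lim (fun n => deg1 (f ^ n)) l₁ ∧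
      Lim (fun n => deg2 (f ^ n)) l₂ ∧ 1 < l₂ / l₁ ∧ l₂ / l₁ < μ) ∧
    (∃ (f : K k →ₐ[k] K k) (l₁ l₂ : ℝ), Lim (fun n => deg1 (f ^ n)) l₁ ∧
      Lim (fun n => deg2 (f ^ n)) l₂ ∧ μ⁻¹ < l₂ / l₁ ∧ l₂ / l₁ < 1) := by
  obtain ⟨N, hN⟩ := exists_nat_gt (2 * μ / (μ - 1))
  obtain ⟨p, hpN, hp⟩ := Nat.exists_infinite_primes (N + 5)
  obtain ⟨q, rfl⟩ : ∃ q, p = q + 5 := ⟨p - 5, by omega⟩
  have hq : (N : ℝ) ≤ q := by exact_mod_cast (by omega : N ≤ q)
  have hq0 : (0 : ℝ) ≤ q := by positivity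
  have hbig : 2 * μ < (q + 5) * (μ - 1) := by
    rw [div_lt_iff₀ (by linarith)] at hN
    nlinarith
  have hx := x_ne (k := k) 0
  have hy := x_ne (k := k) 1
  have he : (q + 5) * 1 ≠ 0 * 0 := by omega
  have hE := deg2_e (k := k) (q + 5) hp he
  constructor
  · have hd : 2 * (q + 3) ≠ 1 * (q + 1) := by omega
    have hs : 1 * 1 ≠ 0 * 2 := by omega
    set f := mono (k := k) 2 1 (q + 1) (q + 3) hd with hf
    set σ := mono (k := k) 1 0 2 1 hs with hσ
    set g := σ.comp (mono (k := k) (q + 5) 0 0 1 he) with hg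
    have f0 := mono_x (k := k) 2 1 (q + 1) (q + 3) hd
    have f1 := mono_y (k := k) 2 1 (q + 1) (q + 3) hd
    have s0 : σ (ι (X 0)) = ι (X 0) := by rw [hσ, mono_x]; simp
    have s1 : σ (ι (X 1)) = ι (X 0) ^ 2 * ι (X 1) := by rw [hσ, mono_y]; simp
    have g0 : g (ι (X 0)) = ι (X 0) ^ (q + 5) := by
      rw [hg, AlgHom.comp_apply, mono_x]; simp [s0]
    have g1 : g (ι (X 1)) = ι (X 0) ^ 2 * ι (X 1) := by
      rw [hg, AlgHom.comp_apply, mono_y]; simp [s1]
    have hσ1 : deg2 σ = 1 := by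
      apply deg2_top
      apply eq_top
      · exact ⟨_, s0⟩
      · refine ⟨ι (X 1) / ι (X 0) ^ 2, ?_⟩
        simp only [AlgHom.toRingHom_eq_coe, RingHom.coe_coe, map_div₀, map_pow, s0, s1]
        field_simp
    have hfg : f.fieldRange = g.fieldRange := by
      apply le_antisymm
      · apply range_le
        · exact ⟨ι (X 1), by rw [hf, f0, pow_one]; exact g1⟩
        · refine ⟨ι (X 1) ^ (q + 3) / ι (X 0), ?_⟩
          simp only [AlgHom.toRingHom_eq_coe, RingHom.coe_coe, map_div₀, map_pow, g0, g1]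
          rw [hf, f1]
          field_simp
          ring
      · apply range_le
        · refine ⟨ι (X 0) ^ (q + 3) / ι (X 1), ?_⟩
          simp only [AlgHom.toRingHom_eq_coe, RingHom.coe_coe, map_div₀, map_pow, g0]
          rw [hf, f0, f1]
          field_simp
          ring
        · exact ⟨ι (X 0), by rw [g1, ← pow_one (ι (X 1))]; exact f0⟩
    have hD : deg2 f = q + 5 := by
      have : deg2 f = deg2 g := by unfold deg2; rw [hfg]
      rw [this, hg, deg2_comp, hE, hσ1, mul_one]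
    obtain ⟨s, hs0, hss⟩ : ∃ s : ℝ, 0 ≤ s ∧ s ^ 2 = (q + 5) * (q + 1) :=
      ⟨√((q + 5) * (q + 1)), Real.sqrt_nonneg _, Real.sq_sqrt (by positivity)⟩
    have hs1 : (q : ℝ) + 1 < s := by
      apply lt_of_pow_lt_pow_left₀ 2 hs0; nlinarith
    have hs2 : s < (q : ℝ) + 3 := by
      apply lt_of_pow_lt_pow_left₀ 2 (by positivity); nlinarith
    refine ⟨f, (q + 5 + s) / 2, ((q + 5 : ℕ) : ℝ), ?_, lim2 f _ hp.pos hD, ?_, ?_⟩
    · apply lim1 f 2 1 (q + 1) (q + 3) f0 f1 _ ((q + 1 + s) / 2) (by positivity) (by linarith)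
      · push_cast; ring
      · push_cast; linear_combination (-1 / 4 : ℝ) * hss
    · rw [lt_div_iff₀ (by positivity)]; push_cast; linarith
    · rw [div_lt_iff₀ (by positivity)]; push_cast; nlinarith
  · have hd : 1 * (q + 6) ≠ 1 * 1 := by omega
    have hs : 0 * 1 ≠ 1 * 1 := by omega
    set f := mono (k := k) 1 1 1 (q + 6) hd with hf
    set σ := mono (k := k) 0 1 1 1 hs with hσ
    set g := σ.comp (mono (k := k) (q + 5) 0 0 1 he) with hg
    have f0 := mono_x (k := k) 1 1 1 (q + 6) hd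
    have f1 := mono_y (k := k) 1 1 1 (q + 6) hd
    have s0 : σ (ι (X 0)) = ι (X 1) := by rw [hσ, mono_x]; simp
    have s1 : σ (ι (X 1)) = ι (X 0) * ι (X 1) := by rw [hσ, mono_y]; simp
    have g0 : g (ι (X 0)) = ι (X 1) ^ (q + 5) := by
      rw [hg, AlgHom.comp_apply, mono_x]; simp [s0]
    have g1 : g (ι (X 1)) = ι (X 0) * ι (X 1) := by
      rw [hg, AlgHom.comp_apply, mono_y]; simp [s1]
    have hσ1 : deg2 σ = 1 := by
      apply deg2_top
      apply eq_top
      · refine ⟨ι (X 1) / ι (X 0), ?_⟩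
        simp only [AlgHom.toRingHom_eq_coe, RingHom.coe_coe, map_div₀, s0, s1]
        field_simp
      · exact ⟨_, s0⟩
    have hfg : f.fieldRange = g.fieldRange := by
      apply le_antisymm
      · apply range_le
        · exact ⟨ι (X 1), by rw [hf, f0, pow_one, pow_one]; exact g1⟩
        · refine ⟨ι (X 1) * ι (X 0), ?_⟩
          simp only [AlgHom.toRingHom_eq_coe, RingHom.coe_coe, map_mul, g0, g1]
          rw [hf, f1]
          ring
      · apply range_le
        · refine ⟨ι (X 1) / ι (X 0), ?_⟩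
          simp only [AlgHom.toRingHom_eq_coe, RingHom.coe_coe, map_div₀, g0]
          rw [hf, f0, f1]
          field_simp
          ring
        · exact ⟨ι (X 0), by rw [g1, ← pow_one (ι (X 1)), ← pow_one (ι (X 0))]; simpa using f0⟩
    have hD : deg2 f = q + 5 := by
      have : deg2 f = deg2 g := by unfold deg2; rw [hfg]
      rw [this, hg, deg2_comp, hE, hσ1, mul_one]
    obtain ⟨s, hs0, hss⟩ : ∃ s : ℝ, 0 ≤ s ∧ s ^ 2 = (q + 5) ^ 2 + 4 :=
      ⟨√((q + 5) ^ 2 + 4), Real.sqrt_nonneg _, Real.sq_sqrt (by positivity)⟩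
    have hs1 : (q : ℝ) + 5 < s := by
      apply lt_of_pow_lt_pow_left₀ 2 hs0; nlinarith
    have hs2 : s < (q : ℝ) + 7 := by
      apply lt_of_pow_lt_pow_left₀ 2 (by positivity); nlinarith
    refine ⟨f, (q + 7 + s) / 2, ((q + 5 : ℕ) : ℝ), ?_, lim2 f _ hp.pos hD, ?_, ?_⟩
    · apply lim1 f 1 1 1 (q + 6) f0 f1 _ ((q + 5 + s) / 2) (by positivity) (by linarith)
      · push_cast; ring
      · push_cast; linear_combination (-1 / 4 : ℝ) * hss
    · rw [lt_div_iff₀ (by positivity), inv_mul_lt_iff₀ (by linarith)]; push_cast; nlinarith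
    · rw [div_lt_iff₀ (by positivity)]; push_cast; linarith

end Pool.Agent.Results.MP_dcd72d_ag.NoGap
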